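import Mathlib
import Pool.Agent.Helper90.Prox2.Final

set_option autoImplicit false

/-!
# Compact Moufang loops: a contracted normal subloop modulo whose closure there is a Haar integral

Definitions used in the statement:
* `Mlt`, `Inner`, `NormalSub`, `NC` : `Pool/Agent/Helper90/Prox/Defs.lean`
* `IsMoufang`, `TopMoufang` : `Pool/Agent/R664/Haar/Loop.lean`, `Pool/Agent/R664/Haar/Final.lean`
* `HasIntegral` : `Pool/Agent/R664/Haar/Conv6.lean`
* `HaarKernel` : `Pool/Agent/R664/Haar/Conv7.lean`
* `ClosedNormal` : `Pool/Agent/TH15/MoufangHaar/Defs.lean`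
-/

namespace Pool.Agent.Results.MP_fd6bc6_al.ContractedNormalSubloop

open Topology Filter
open Pool.Agent.Helper90.Prox
open Pool.Agent.TH15.MoufangHaar (ClosedNormal)
open Pool.Agent.R664.Haar (TopMoufang HasIntegral HaarKernel)

universe u

/-- Every compact Moufang loop `L` has a normal subloop `N` (not necessarily closed) such that `L / closure N`
has an invariant integral and such that some ultrafilter of inner mappings converges to the unit `e` at all
points of `N`, uniformly on the members of a sequence of compact sets which exhausts the normal subloop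
generated by any given sequence in `N`; these subloops contain no closed normal subloop of `L` but `{e}`, and
every coset `xN ≠ N` has an element `x'` such that `e` is not in the closure of the orbit of `x'` under the inner
mappings. If `N = {e}` then `L` has an invariant integral. Hence `L` has an invariant integral if for all `x ≠ e` in some
neighbourhood of `e` the unit `e` is not in the closure of the orbit of `x` under the inner mappings, or if for
all `x ≠ e` in some neighbourhood of `e` the normal subloop generated by `x` contains a closed normal subloop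
`C ≠ {e}` of `L`. -/
theorem result (L : Type u) [TopologicalSpace L] [CompactSpace L] [T2Space L]
    (mul ldiv rdiv : L → L → L) (e : L) (TL : TopMoufang mul ldiv rdiv e) :
    (∃ (N : Set L) (𝒱 : Ultrafilter (L → L)), NormalSub mul ldiv e N ∧
      ClosedNormal mul ldiv e (closure N) ∧ HaarKernel mul (closure N) ∧
      (N = {e} → HasIntegral mul) ∧
      (∀ᶠ φ in (𝒱 : Filter (L → L)), Inner mul e φ) ∧
      (∀ z ∈ N, Tendsto (fun φ : L → L => φ z) 𝒱 (𝓝 e)) ∧
      (∀ x, x ∉ N → ∃ n ∈ N, e ∉ closure {z | ∃ φ, Inner mul e φ ∧ φ (mul x n) = z}) ∧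
      ∀ X : ℕ → L, (∀ n, X n ∈ N) →
        (∃ W : ℕ → Set L, (∀ n, IsCompact (W n)) ∧ ⋃ n, W n = NC mul ldiv e X ∧
          ∀ n, ∀ U ∈ 𝓝 e, ∀ᶠ φ in (𝒱 : Filter (L → L)), ∀ z ∈ W n, φ z ∈ U) ∧
        ∀ C, ClosedNormal mul ldiv e C → C ⊆ NC mul ldiv e X → C = {e}) ∧
    ((∃ U ∈ 𝓝 e, ∀ x ∈ U, x ≠ e → e ∉ closure {z | ∃ φ, Inner mul e φ ∧ φ x = z}) →
      HasIntegral mul) ∧
    ((∃ U ∈ 𝓝 e, ∀ x ∈ U, x ≠ e →
        ∃ C, ClosedNormal mul ldiv e C ∧ C ≠ {e} ∧ C ⊆ NC mul ldiv e (fun _ => x)) →
      HasIntegral mul) :=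
  ⟨final2 TL, crit1 TL, crit2 TL⟩

end Pool.Agent.Results.MP_fd6bc6_al.ContractedNormalSubloop
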