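import Mathlib
import Pool.Agent.Helper90.Prox.Seq

set_option autoImplicit false

/-!
# Haar integral on compact Moufang loops: reduction to loops with a dense contracted normal subloop

Definitions used in the statement:
* `Mlt`, `Inner`, `NormalSub` : `Pool/Agent/Helper90/Prox/Defs.lean`
* `Contracted` : `Pool/Agent/Helper90/Prox/Seq.lean`
* `IsMoufang`, `TopMoufang` : `Pool/Agent/R664/Haar/Loop.lean`, `Pool/Agent/R664/Haar/Final.lean`
* `HasIntegral` : `Pool/Agent/R664/Haar/Conv6.lean`
* `HaarKernel` : `Pool/Agent/R664/Haar/Conv7.lean`
* `HaarSub` : `Pool/Agent/R664/Haar/Conv9.lean`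
* `ClosedNormal` : `Pool/Agent/TH15/MoufangHaar/Defs.lean`
-/

namespace Pool.Agent.Results.MP_fd6bc6_al.ContractedReduction

open TopologicalSpace (Compacts)
open Pool.Agent.Helper90.Prox (Contracted)
open Pool.Agent.TH15.MoufangHaar (ClosedNormal)
open Pool.Agent.R664.Haar (TopMoufang HasIntegral HaarKernel HaarSub)

universe u

/-- Every compact Moufang loop has an invariant integral if and only if every nontrivial compact connected
metrizable Moufang loop `K` with the following two properties has a closed normal subloop `N` such that
`N ≠ {e}` and `N` has an invariant integral, or `N ≠ K` and `K / N` has an invariant integral: (1) the space of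
closed normal subloops of `K` is connected; (2) there are compact sets `W n` whose union is a dense normal
subloop of `K` containing no closed normal subloop but `{e}`, and a sequence of inner mappings of `K` which
converges to `e` uniformly on each `W n`. -/
theorem result :
    (∀ (L : Type u) [TopologicalSpace L] [CompactSpace L] [T2Space L] (mul ldiv rdiv : L → L → L)
      (e : L), TopMoufang mul ldiv rdiv e → HasIntegral mul) ↔
    (∀ (K : Type u) [TopologicalSpace K] [CompactSpace K] [TopologicalSpace.MetrizableSpace K]
      [ConnectedSpace K] [Nontrivial K] (mul ldiv rdiv : K → K → K) (e : K),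
      TopMoufang mul ldiv rdiv e →
      IsConnected {N : Compacts K | ClosedNormal mul ldiv e (N : Set K)} →
      (∃ (W : ℕ → Set K) (φ : ℕ → K → K), Contracted mul ldiv e W φ ∧ Dense (⋃ n, W n)) →
      ∃ N : Set K, ClosedNormal mul ldiv e N ∧
        ((N ≠ {e} ∧ HaarSub mul N) ∨ (N ≠ Set.univ ∧ HaarKernel mul N))) :=
  Pool.Agent.Helper90.Prox.reduction2

end Pool.Agent.Results.MP_fd6bc6_al.ContractedReduction
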